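import Mathlib

set_option autoImplicit false

open Cardinal

namespace Pool.Agent.Helper15.Prufer

section Pinv

variable (p : ℕ) [Fact p.Prime]

/-- The Pruefer group, as `ℚ_p / ℤ_p`. -/
abbrev D : Type := ℚ_[p] ⧸ (PadicInt.subring p).toAddSubgroup

/-- The class of `1/p`. -/
noncomputable def pinv : D p := QuotientAddGroup.mk ((p : ℚ_[p])⁻¹)

lemma nsmul_pinv : p • pinv p = 0 := by
  have h : p • pinv p = (QuotientAddGroup.mk (p • (p : ℚ_[p])⁻¹) : D p) := rfl
  rw [h, QuotientAddGroup.eq_zero_iff]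
  have hp : (p : ℚ_[p]) ≠ 0 := by exact_mod_cast (Fact.out : p.Prime).ne_zero
  rw [nsmul_eq_mul, mul_inv_cancel₀ hp]
  exact one_mem (PadicInt.subring p)

lemma exists_of_nsmul_eq_zero {d : D p} (h : p • d = 0) : ∃ n : ℕ, d = n • pinv p := by
  induction d using QuotientAddGroup.induction_on with
  | H x =>
    have h1 : p • (x : D p) = (QuotientAddGroup.mk (p • x) : D p) := rfl
    rw [h1, QuotientAddGroup.eq_zero_iff] at h
    have hp : (p : ℚ_[p]) ≠ 0 := by exact_mod_cast (Fact.out : p.Prime).ne_zero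
    have h2 : ‖(p : ℚ_[p]) * x‖ ≤ 1 := by
      rw [nsmul_eq_mul] at h
      exact h
    obtain ⟨n, -, hn⟩ := PadicInt.exists_mem_range (⟨(p : ℚ_[p]) * x, h2⟩ : ℤ_[p])
    rw [PadicInt.maximalIdeal_eq_span_p, Ideal.mem_span_singleton] at hn
    obtain ⟨v, hv⟩ := hn
    refine ⟨n, ?_⟩
    have h3 : n • pinv p = (QuotientAddGroup.mk (n • (p : ℚ_[p])⁻¹) : D p) := rfl
    rw [h3, QuotientAddGroup.eq]
    have h4 : (p : ℚ_[p]) * x - n = p * (v : ℚ_[p]) := by
      have := congrArg (fun z : ℤ_[p] => (z : ℚ_[p])) hv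
      simpa using this
    have h5 : -x + n • (p : ℚ_[p])⁻¹ = -(v : ℚ_[p]) := by
      rw [nsmul_eq_mul]
      field_simp
      linear_combination -h4
    rw [h5]
    exact neg_mem (show (v : ℚ_[p]) ∈ (PadicInt.subring p).toAddSubgroup from v.2)

lemma exists_pow_nsmul (d : D p) : ∃ k : ℕ, p ^ k • d = 0 := by
  induction d using QuotientAddGroup.induction_on with
  | H x =>
    have hp1 : (1 : ℝ) < p := by exact_mod_cast (Fact.out : p.Prime).one_lt
    obtain ⟨k, hk⟩ := pow_unbounded_of_one_lt ‖x‖ hp1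
    refine ⟨k, ?_⟩
    have h1 : p ^ k • (x : D p) = (QuotientAddGroup.mk (p ^ k • x) : D p) := rfl
    rw [h1, QuotientAddGroup.eq_zero_iff]
    show ‖p ^ k • x‖ ≤ 1
    rw [nsmul_eq_mul, Nat.cast_pow, norm_mul, norm_pow, Padic.norm_p, inv_pow]
    rw [inv_mul_le_iff₀ (by positivity)]
    linarith

variable {p}

lemma smul_surj {I : Type} {n : ℤ} (hn : n ≠ 0) :
    Function.Surjective (fun f : I →₀ D p => n • f) := by
  intro f
  induction f using Finsupp.induction_linear with
  | zero => exact ⟨0, smul_zero _⟩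
  | add f g hf hg =>
    obtain ⟨a, ha⟩ := hf
    obtain ⟨b, hb⟩ := hg
    refine ⟨a + b, ?_⟩
    simp only at ha hb ⊢
    rw [smul_add, ha, hb]
  | single i d =>
    obtain ⟨e, he⟩ : ∃ e : D p, n • e = d := by
      induction d using QuotientAddGroup.induction_on with
      | H x =>
        refine ⟨QuotientAddGroup.mk (x / n), ?_⟩
        have h1 : n • (QuotientAddGroup.mk (x / n) : D p) = QuotientAddGroup.mk (n • (x / n)) := rfl
        have h2 : (n : ℚ_[p]) ≠ 0 := by exact_mod_cast hn
        rw [h1, zsmul_eq_mul, mul_div_cancel₀ _ h2]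
    refine ⟨Finsupp.single i e, ?_⟩
    simp only
    rw [Finsupp.smul_single, he]

lemma nsmul_pow_surj {X : Type} [AddCommGroup X]
    (hdiv : ∀ n : ℕ, n ≠ 0 → ∀ x : X, ∃ y, n • y = x) {I : Type} (S : AddSubgroup X)
    (φ : S →+ (I →₀ D p)) (h : ∀ i, ∃ s, φ s = Finsupp.single i (pinv p)) :
    ∃ Φ : X →+ (I →₀ D p), Function.Surjective Φ := by
  let _ : DivisibleBy (I →₀ D p) ℤ := divisibleByOfSMulRightSurj _ _ smul_surj
  obtain ⟨Φ, hΦ⟩ := (Module.Baer.of_divisible (I →₀ D p)).extension_property_addMonoidHom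
    S.subtype Subtype.val_injective φ
  have hΦ' : ∀ s : S, Φ s = φ s := fun s => DFunLike.congr_fun hΦ s
  have ha : ∀ f : I →₀ D p, p • f = 0 → f ∈ Φ.range := by
    intro f hf
    rw [← Finsupp.sum_single f]
    refine sum_mem fun i _ => ?_
    have h1 : p • f i = 0 := by
      have := DFunLike.congr_fun hf i
      simpa using this
    obtain ⟨n, hn⟩ := exists_of_nsmul_eq_zero p h1
    obtain ⟨s, hs⟩ := h i
    refine ⟨n • (s : X), ?_⟩
    rw [map_nsmul, hΦ', hs, hn, Finsupp.smul_single]
  have hb : ∀ k : ℕ, ∀ f : I →₀ D p, p ^ k • f = 0 → f ∈ Φ.range := by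
    intro k
    induction k with
    | zero =>
      intro f hf
      rw [pow_zero, one_smul] at hf
      rw [hf]
      exact zero_mem _
    | succ k ih =>
      intro f hf
      obtain ⟨y, hy⟩ := ha (p ^ k • f) (by rw [smul_smul, ← pow_succ']; exact hf)
      obtain ⟨z, hz⟩ := hdiv (p ^ k) (pow_ne_zero _ (Fact.out : p.Prime).ne_zero) y
      have h1 : f - Φ z ∈ Φ.range := by
        apply ih
        rw [smul_sub, ← map_nsmul, hz, hy, sub_self]
      have h2 := add_mem h1 (show Φ z ∈ Φ.range from ⟨z, rfl⟩)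
      simpa using h2
  have hc : ∀ f : I →₀ D p, ∃ k : ℕ, p ^ k • f = 0 := by
    intro f
    induction f using Finsupp.induction_linear with
    | zero => exact ⟨0, smul_zero _⟩
    | add f g hf hg =>
      obtain ⟨a, ha⟩ := hf
      obtain ⟨b, hb⟩ := hg
      refine ⟨a + b, ?_⟩
      rw [smul_add, pow_add, mul_comm, mul_smul, ha, smul_zero, zero_add, mul_comm, mul_smul, hb,
        smul_zero]
    | single i d =>
      obtain ⟨k, hk⟩ := exists_pow_nsmul p d
      exact ⟨k, by rw [Finsupp.smul_single, hk, Finsupp.single_zero]⟩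
  refine ⟨Φ, fun f => ?_⟩
  obtain ⟨k, hk⟩ := hc f
  exact hb k f hk

end Pinv

/-! ### Cardinalities -/

lemma mk_le_range_mul_ker {A B : Type} [AddCommGroup A] [AddCommGroup B] (f : A →+ B) :
    #A ≤ #f.range * #f.ker := by
  rw [Cardinal.mk_congr (AddSubgroup.addGroupEquivQuotientProdAddSubgroup (s := f.ker))]
  rw [Cardinal.mk_prod, Cardinal.lift_id, Cardinal.lift_id]
  exact mul_le_mul' (Cardinal.mk_congr (QuotientAddGroup.quotientKerEquivRange f).toEquiv).le le_rfl

/-- The `n`-torsion. -/
def T (X : Type) [AddCommGroup X] (n : ℕ) : AddSubgroup X := (nsmulAddMonoidHom n : X →+ X).ker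

lemma mem_T {X : Type} [AddCommGroup X] {n : ℕ} {x : X} : x ∈ T X n ↔ n • x = 0 := Iff.rfl

lemma mk_T_le {X : Type} [AddCommGroup X] {κ : Cardinal.{0}} (hκ : ℵ₀ ≤ κ)
    (h : ∀ p : ℕ, p.Prime → #(T X p) ≤ κ) (n : ℕ) : n ≠ 0 → #(T X n) ≤ κ := by
  induction n using Nat.recOnMul with
  | zero => intro h; exact absurd rfl h
  | one =>
    intro _
    have : T X 1 = ⊥ := by
      ext x
      rw [mem_T, one_smul, AddSubgroup.mem_bot]
    rw [this]
    refine le_trans ?_ hκ
    exact (Cardinal.mk_le_aleph0 (α := (⊥ : AddSubgroup X)))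
  | prime p hp => intro _; exact h p hp
  | mul a b ha hb =>
    intro hab
    have ha' := ha (left_ne_zero_of_mul hab)
    have hb' := hb (right_ne_zero_of_mul hab)
    let f : T X (a * b) →+ X := (nsmulAddMonoidHom a).comp (T X (a * b)).subtype
    have h1 : #f.range ≤ κ := by
      refine le_trans (Cardinal.mk_le_of_injective (f := fun x : f.range =>
        (⟨x.1, ?_⟩ : T X b)) ?_) hb'
      · obtain ⟨y, hy⟩ := x.2
        rw [mem_T, ← hy]
        have := y.2
        rw [mem_T] at this
        change b • (a • (y : X)) = 0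
        rw [smul_smul, mul_comm]
        exact this
      · intro x y hxy
        exact Subtype.ext (congrArg (fun z : T X b => (z : X)) hxy)
    have h2 : #f.ker ≤ κ := by
      refine le_trans (Cardinal.mk_le_of_injective (f := fun x : f.ker =>
        (⟨(x.1 : X), x.2⟩ : T X a)) ?_) ha'
      intro x y hxy
      exact Subtype.ext (Subtype.ext (congrArg (fun z : T X a => (z : X)) hxy))
    calc #(T X (a * b)) ≤ #f.range * #f.ker := mk_le_range_mul_ker f
      _ ≤ κ * κ := mul_le_mul' h1 h2
      _ = κ := Cardinal.mul_eq_self hκ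

lemma mk_finsupp_le {A B : Type} [Zero B] [Nontrivial B] {κ : Cardinal.{0}} (hκ : ℵ₀ ≤ κ)
    (hA : #A ≤ κ) (hB : #B ≤ ℵ₀) : #(A →₀ B) ≤ κ := by
  have : Countable B := Cardinal.mk_le_aleph0_iff.1 hB
  rcases finite_or_infinite A with hfin | hinf
  · exact le_trans (Cardinal.mk_le_aleph0_iff.2 inferInstance) hκ
  · rw [Cardinal.mk_finsupp_of_infinite]
    exact max_le hA (hB.trans hκ)

theorem exists_surj_prufer (X : Type) [AddCommGroup X]
    (hdiv : ∀ n : ℕ, n ≠ 0 → ∀ x : X, ∃ y, n • y = x) (κ : Cardinal.{0})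
    (hκ : Cardinal.aleph0 ≤ κ) (hX : κ < Cardinal.mk X) :
    ∃ (p : ℕ) (_ : Fact p.Prime) (I : Type)
      (Φ : X →+ (I →₀ (ℚ_[p] ⧸ (PadicInt.subring p).toAddSubgroup))),
      κ < Cardinal.mk I ∧ Function.Surjective Φ := by
  obtain ⟨s, hs, hmax⟩ := exists_maximal_linearIndepOn ℤ (id : X → X)
  by_cases hsκ : κ < #s
  · -- a large independent family
    have : Fact (Nat.Prime 2) := ⟨Nat.prime_two⟩
    have hs' : LinearIndependent ℤ (fun x : s => (x : X)) := hs
    let S : Submodule ℤ X := Submodule.span ℤ (Set.range (fun x : s => (x : X)))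
    let φ : S →ₗ[ℤ] (s →₀ D 2) :=
      (Finsupp.linearCombination ℤ (fun j : s => Finsupp.single j (pinv 2))).comp hs'.repr
    obtain ⟨Φ, hΦ⟩ := nsmul_pow_surj hdiv S.toAddSubgroup φ.toAddMonoidHom (fun i => by
      refine ⟨⟨(i : X), Submodule.subset_span ⟨i, rfl⟩⟩, ?_⟩
      change (Finsupp.linearCombination ℤ (fun j : s => Finsupp.single j (pinv 2)))
        (hs'.repr ⟨(i : X), _⟩) = _
      rw [hs'.repr_eq_single i _ rfl, Finsupp.linearCombination_single, one_smul])
    exact ⟨2, inferInstance, s, Φ, hsκ, hΦ⟩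
  · push Not at hsκ
    by_cases hT : ∃ p : ℕ, p.Prime ∧ κ < #(T X p)
    · obtain ⟨p, hp, hTp⟩ := hT
      have : Fact p.Prime := ⟨hp⟩
      let _ : Module (ZMod p) (T X p) := AddCommGroup.zmodModule (n := p)
        (fun x => Subtype.ext x.2)
      let b := Module.Basis.ofVectorSpace (ZMod p) (T X p)
      let I := Module.Basis.ofVectorSpaceIndex (ZMod p) (T X p)
      have hI : κ < #I := by
        by_contra hcon
        push Not at hcon
        have h1 : #(T X p) = #(I →₀ ZMod p) := Cardinal.mk_congr b.repr.toEquiv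
        have h2 : #(I →₀ ZMod p) ≤ κ := mk_finsupp_le hκ hcon (Cardinal.mk_le_aleph0_iff.2
          (by infer_instance))
        rw [h1] at hTp
        exact absurd hTp (not_lt.2 h2)
      let g : ZMod p →+ D p := ZMod.lift p ⟨zmultiplesHom (D p) (pinv p), by
        rw [zmultiplesHom_apply, natCast_zsmul, nsmul_pinv]⟩
      have hg : g 1 = pinv p := by
        have : g ((1 : ℤ) : ZMod p) = zmultiplesHom (D p) (pinv p) 1 := ZMod.lift_coe _ _ _
        rw [Int.cast_one] at this
        rw [this, zmultiplesHom_apply, one_smul]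
      let φ : T X p →+ (I →₀ D p) := (Finsupp.mapRange.addMonoidHom g).comp
        b.repr.toLinearMap.toAddMonoidHom
      obtain ⟨Φ, hΦ⟩ := nsmul_pow_surj hdiv (T X p) φ (fun i => by
        refine ⟨b i, ?_⟩
        change Finsupp.mapRange g (map_zero g) (b.repr (b i)) = _
        rw [b.repr_self, Finsupp.mapRange_single, hg])
      exact ⟨p, inferInstance, I, Φ, hI, hΦ⟩
    · exfalso
      push Not at hT
      have hTn := mk_T_le hκ hT
      let S : Submodule ℤ X := Submodule.span ℤ (id '' s)
      have hS : #S ≤ κ := by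
        have h1 : #(s →₀ ℤ) ≤ κ := mk_finsupp_le hκ hsκ Cardinal.mk_int.le
        refine le_trans ?_ h1
        have hsurj : ∀ y : S, ∃ f : s →₀ ℤ,
            Finsupp.linearCombination ℤ (fun x : s => (x : X)) f = y := by
          intro y
          have h3 : (id '' s : Set X) = Set.range (fun x : s => (x : X)) := by simp
          have h2 : (y : X) ∈ Submodule.span ℤ (Set.range (fun x : s => (x : X))) := by
            rw [← h3]
            exact y.2
          exact (Finsupp.mem_span_range_iff_exists_finsupp).1 h2 |>.imp fun f hf => by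
            rw [Finsupp.linearCombination_apply]; exact hf
        choose F hF using hsurj
        exact Cardinal.mk_le_of_injective (f := F) (fun x y hxy => Subtype.ext (by
          rw [← hF x, ← hF y, hxy]))
      let A : ℕ → AddSubgroup X := fun n => S.toAddSubgroup.comap (nsmulAddMonoidHom (n + 1))
      have hA : ∀ n, #(A n) ≤ κ := by
        intro n
        let f : A n →+ X := (nsmulAddMonoidHom (n + 1)).comp (A n).subtype
        have h1 : #f.range ≤ κ := by
          refine le_trans (Cardinal.mk_le_of_injective (f := fun x : f.range =>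
            (⟨x.1, ?_⟩ : S)) ?_) hS
          · obtain ⟨y, hy⟩ := x.2
            rw [← hy]
            exact y.2
          · intro x y hxy
            exact Subtype.ext (congrArg (fun z : S => (z : X)) hxy)
        have h2 : #f.ker ≤ κ := by
          refine le_trans (Cardinal.mk_le_of_injective (f := fun x : f.ker =>
            (⟨(x.1 : X), x.2⟩ : T X (n + 1))) ?_) (hTn (n + 1) (Nat.succ_ne_zero n))
          intro x y hxy
          exact Subtype.ext (Subtype.ext (congrArg (fun z : T X (n + 1) => (z : X)) hxy))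
        calc #(A n) ≤ #f.range * #f.ker := mk_le_range_mul_ker f
          _ ≤ κ * κ := mul_le_mul' h1 h2
          _ = κ := Cardinal.mul_eq_self hκ
      have hcov : ∀ x : X, ∃ n, x ∈ A n := by
        intro x
        by_cases hx : x ∈ s
        · refine ⟨0, ?_⟩
          change (0 + 1) • x ∈ S
          rw [zero_add, one_smul]
          exact Submodule.subset_span ⟨x, hx, rfl⟩
        · obtain ⟨a, ha0, ha⟩ := hmax x hx
          refine ⟨a.natAbs - 1, ?_⟩
          change (a.natAbs - 1 + 1) • x ∈ S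
          rw [Nat.sub_add_cancel (Int.natAbs_pos.2 ha0)]
          rw [← natCast_zsmul]
          rcases Int.natAbs_eq a with h | h
          · rw [← h]; exact ha
          · have : ((a.natAbs : ℕ) : ℤ) = -a := by omega
            rw [this, neg_smul]
            exact neg_mem ha
      have h3 : #X ≤ κ := by
        have hu : (Set.univ : Set X) = ⋃ n, (A n : Set X) := by
          ext x
          simpa using hcov x
        rw [← Cardinal.mk_univ, hu]
        refine (Cardinal.mk_iUnion_le_sum_mk).trans ?_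
        refine (Cardinal.sum_le_mk_mul_iSup (fun n => #(A n))).trans ?_
        have h4 : ⨆ n, #(A n) ≤ κ := ciSup_le' hA
        rw [Cardinal.mk_nat]
        exact (mul_le_mul' hκ h4).trans (Cardinal.mul_eq_self hκ).le
      exact absurd hX (not_lt.2 h3)

end Pool.Agent.Helper15.Prufer
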